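import Mathlib

/-!
# Propermutable subgroups need not be propermutable in intermediate subgroups

Let `p` be an odd prime. Let `G` be the central product of the Heisenberg group of order `p ^ 3` and exponent
`p` with a cyclic group of order `p ^ 2`: the triples `(x, y, w)`, `x, y` modulo `p`, `w` modulo `p ^ 2`, with
`(x, y, w) (x', y', w') = (x + x', y + y', w + w' + p x y')`.

* `A = {(x, 0, 0)}` has order `p` and its normaliser is `{(x, 0, w)}`.
* `T = {(0, w mod p, w)}` is cyclic of order `p ^ 2`, `G = N_G(A) T`, and `A` normalises every subgroup of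
  `T`, because `(x, 0, 0)` acts on `T` as the power map `k ↦ k ^ (1 + p x)`. So `A` is propermutable in `G`.
* `B = {(x, y, w) : p ∣ w}` is the Heisenberg group. It is normal in `G`, it contains `A`, and its elements have
  order `1` or `p`. If `A` permutes with `⟨c⟩`, `c ∈ B`, then `A ⟨c⟩` is a subgroup in which `c` normalises `A`,
  hence `c ∈ N_B(A)`, and so `A` is not propermutable in `B`.
-/

set_option autoImplicit false

open Pointwise

namespace Pool.Agent.Results.MP_1ee7a3_al.NotHereditary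

/-- `H` is propermutable in `G`: there is a subgroup `T` with `G = N_G(H) T` such that `H K = K H` for every
subgroup `K` of `T`. -/
def Propermutable {G : Type} [Group G] (H : Subgroup G) : Prop :=
  ∃ T : Subgroup G,
    (∀ g : G, ∃ n t : G, (∀ h : G, h ∈ H ↔ n * h * n⁻¹ ∈ H) ∧ t ∈ T ∧ g = n * t) ∧
    ∀ K : Subgroup G, K ≤ T → (H : Set G) * (K : Set G) = (K : Set G) * (H : Set G)

/-! ### the embedding of `ZMod p` in `ZMod (p ^ 2)` -/

/-- multiplication by `p`, from `ZMod p` to `ZMod (p ^ 2)` -/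
def io (p : ℕ) : ZMod p →+ ZMod (p ^ 2) :=
  ZMod.lift p ⟨zmultiplesHom (ZMod (p ^ 2)) (p : ZMod (p ^ 2)), by
    simp only [zmultiplesHom_apply]
    rw [zsmul_eq_mul]
    have h : ((p ^ 2 : ℕ) : ZMod (p ^ 2)) = 0 := ZMod.natCast_self _
    push_cast at h ⊢
    rw [← h]; ring⟩

lemma io_int (p : ℕ) (k : ℤ) : io p (k : ZMod p) = (k : ZMod (p ^ 2)) * p := by
  unfold io
  rw [ZMod.lift_coe]
  simp

lemma io_inj (p : ℕ) [Fact p.Prime] (x : ZMod p) (h : io p x = 0) : x = 0 := by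
  obtain ⟨k, rfl⟩ := ZMod.intCast_surjective x
  rw [io_int] at h
  have h1 : ((k * p : ℤ) : ZMod (p ^ 2)) = 0 := by push_cast; exact h
  rw [ZMod.intCast_zmod_eq_zero_iff_dvd] at h1
  rw [ZMod.intCast_zmod_eq_zero_iff_dvd]
  have hp : (p : ℤ) ≠ 0 := by exact_mod_cast (Fact.out : p.Prime).ne_zero
  push_cast at h1
  rw [sq] at h1
  exact Int.dvd_of_mul_dvd_mul_right hp h1

/-- reduction modulo `p` -/
def cs (p : ℕ) : ZMod (p ^ 2) →+* ZMod p := ZMod.castHom (dvd_pow_self p two_ne_zero) (ZMod p)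

lemma io_cs (p : ℕ) (w : ZMod (p ^ 2)) : io p (cs p w) = w * p := by
  obtain ⟨k, rfl⟩ := ZMod.intCast_surjective w
  rw [map_intCast, io_int]

lemma cs_io (p : ℕ) (x : ZMod p) : cs p (io p x) = 0 := by
  obtain ⟨k, rfl⟩ := ZMod.intCast_surjective x
  rw [io_int, map_mul, map_natCast, ZMod.natCast_self, mul_zero]

lemma io_mul_cs (p : ℕ) (x : ZMod p) (k : ℤ) (hk : (k : ZMod p) = x) (w : ZMod (p ^ 2)) :
    io p (x * cs p w) = k * p * w := by
  subst hk
  have h : (k : ZMod p) * cs p w = cs p (k * w) := by rw [map_mul, map_intCast]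
  rw [h, io_cs]; ring

/-! ### the group -/

/-- the underlying set of the group `G` -/
@[ext] structure Gp (p : ℕ) where
  /-- first coordinate -/
  x : ZMod p
  /-- second coordinate -/
  y : ZMod p
  /-- third coordinate -/
  w : ZMod (p ^ 2)

variable {p : ℕ}

instance : Mul (Gp p) := ⟨fun a b => ⟨a.x + b.x, a.y + b.y, a.w + b.w + io p (a.x * b.y)⟩⟩
instance : One (Gp p) := ⟨⟨0, 0, 0⟩⟩
instance : Inv (Gp p) := ⟨fun a => ⟨-a.x, -a.y, -a.w + io p (a.x * a.y)⟩⟩

@[simp] lemma mul_x (a b : Gp p) : (a * b).x = a.x + b.x := rfl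
@[simp] lemma mul_y (a b : Gp p) : (a * b).y = a.y + b.y := rfl
@[simp] lemma mul_w (a b : Gp p) : (a * b).w = a.w + b.w + io p (a.x * b.y) := rfl
@[simp] lemma one_x : (1 : Gp p).x = 0 := rfl
@[simp] lemma one_y : (1 : Gp p).y = 0 := rfl
@[simp] lemma one_w : (1 : Gp p).w = 0 := rfl
@[simp] lemma inv_x (a : Gp p) : (a⁻¹).x = -a.x := rfl
@[simp] lemma inv_y (a : Gp p) : (a⁻¹).y = -a.y := rfl
@[simp] lemma inv_w (a : Gp p) : (a⁻¹).w = -a.w + io p (a.x * a.y) := rfl

instance : Group (Gp p) where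
  mul_assoc a b c := by
    ext <;> simp [add_assoc, add_mul, mul_add]
    abel
  one_mul a := by ext <;> simp
  mul_one a := by ext <;> simp
  inv_mul_cancel a := by ext <;> simp

/-- the group as a product of three cyclic groups -/
def eqv (p : ℕ) : Gp p ≃ ZMod p × ZMod p × ZMod (p ^ 2) where
  toFun a := (a.x, a.y, a.w)
  invFun a := ⟨a.1, a.2.1, a.2.2⟩
  left_inv _ := rfl
  right_inv _ := rfl

lemma card_G : Nat.card (Gp p) = p ^ 4 := by
  rw [Nat.card_congr (eqv p), Nat.card_prod, Nat.card_prod, Nat.card_zmod, Nat.card_zmod]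
  ring

/-- the powers of an element -/
lemma pow_eq (g : Gp p) (n : ℕ) : (g ^ n).x = n * g.x ∧ (g ^ n).y = n * g.y ∧
    (g ^ n).w = n * g.w + (n.choose 2 : ℕ) * io p (g.x * g.y) := by
  induction n with
  | zero => simp
  | succ n ih =>
    obtain ⟨h1, h2, h3⟩ := ih
    rw [pow_succ]
    refine ⟨by simp [h1]; ring, by simp [h2]; ring, ?_⟩
    rw [mul_w, h1, h3, Nat.choose_succ_succ' n 1, Nat.choose_one_right]
    have h4 : (n : ZMod p) * g.x * g.y = n • (g.x * g.y) := by rw [nsmul_eq_mul]; ring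
    rw [h4, map_nsmul, nsmul_eq_mul]
    push_cast
    ring

/-- the subgroup `A` -/
def A (p : ℕ) : Subgroup (Gp p) where
  carrier := {g | g.y = 0 ∧ g.w = 0}
  one_mem' := ⟨rfl, rfl⟩
  mul_mem' := by
    rintro a b ⟨h1, h2⟩ ⟨h3, h4⟩
    exact ⟨by simp [h1, h3], by simp [h2, h4, h3]⟩
  inv_mem' := by
    rintro a ⟨h1, h2⟩
    exact ⟨by simp [h1], by simp [h2, h1]⟩

lemma mem_A (g : Gp p) : g ∈ A p ↔ g.y = 0 ∧ g.w = 0 := Iff.rfl

/-- the subgroup `B` -/
def B (p : ℕ) : Subgroup (Gp p) where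
  carrier := {g | g.w ∈ (io p).range}
  one_mem' := (io p).range.zero_mem
  mul_mem' := by
    rintro a b h1 h2
    exact (io p).range.add_mem ((io p).range.add_mem h1 h2) ⟨_, rfl⟩
  inv_mem' := by
    rintro a h1
    exact (io p).range.add_mem ((io p).range.neg_mem h1) ⟨_, rfl⟩

lemma mem_B (g : Gp p) : g ∈ B p ↔ g.w ∈ (io p).range := Iff.rfl

lemma A_le_B : A p ≤ B p := by
  rintro g ⟨-, h⟩
  rw [mem_B, h]
  exact (io p).range.zero_mem

lemma B_normal : (B p).Normal := by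
  refine ⟨fun g hg h => ?_⟩
  rw [mem_B] at hg ⊢
  have e : (h * g * h⁻¹).w = g.w + io p (h.x * g.y - g.x * h.y) := by
    simp [add_mul, mul_neg, map_sub]
    abel
  rw [e]
  exact (io p).range.add_mem hg ⟨_, rfl⟩

/-- the subgroup `T` -/
def T (p : ℕ) : Subgroup (Gp p) where
  carrier := {g | g.x = 0 ∧ g.y = cs p g.w}
  one_mem' := ⟨rfl, by simp⟩
  mul_mem' := by
    rintro a b ⟨h1, h2⟩ ⟨h3, h4⟩
    exact ⟨by simp [h1, h3], by simp [h2, h4, h1]⟩
  inv_mem' := by
    rintro a ⟨h1, h2⟩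
    exact ⟨by simp [h1], by simp [h2, h1]⟩

lemma mem_T (g : Gp p) : g ∈ T p ↔ g.x = 0 ∧ g.y = cs p g.w := Iff.rfl

lemma card_A : Nat.card (A p) = p := by
  have e : A p ≃ ZMod p :=
    { toFun := fun g => g.1.x
      invFun := fun x => ⟨⟨x, 0, 0⟩, rfl, rfl⟩
      left_inv := by
        rintro ⟨g, h1, h2⟩
        apply Subtype.ext
        ext
        · rfl
        · exact h1.symm
        · exact h2.symm
      right_inv := fun _ => rfl }
  rw [Nat.card_congr e, Nat.card_zmod]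

lemma card_B [Fact p.Prime] : Nat.card (B p) = p ^ 3 := by
  have e : (ZMod p × ZMod p × ZMod p) ≃ B p :=
    Equiv.ofBijective (fun v => ⟨⟨v.1, v.2.1, io p v.2.2⟩, ⟨v.2.2, rfl⟩⟩) (by
      constructor
      · rintro ⟨a, b, c⟩ ⟨a', b', c'⟩ h
        have h0 := congrArg Subtype.val h
        have h1 : a = a' := congrArg Gp.x h0
        have h2 : b = b' := congrArg Gp.y h0
        have h3 : io p c = io p c' := congrArg Gp.w h0
        have h4 : io p (c - c') = 0 := by rw [map_sub, h3, sub_self]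
        have h5 := sub_eq_zero.1 (io_inj p _ h4)
        rw [h1, h2, h5]
      · rintro ⟨⟨a, b, w⟩, c, hc⟩
        refine ⟨(a, b, c), ?_⟩
        apply Subtype.ext
        ext
        · rfl
        · rfl
        · exact hc)
  rw [← Nat.card_congr e, Nat.card_prod, Nat.card_prod, Nat.card_zmod]
  ring

/-- elements with `y = 0` normalise `A` -/
lemma norm_A (n : Gp p) (hn : n.y = 0) (h : Gp p) : h ∈ A p ↔ n * h * n⁻¹ ∈ A p := by
  rw [mem_A, mem_A]
  simp only [mul_y, mul_w, inv_y, inv_w, mul_x, hn, neg_zero, mul_zero, map_zero, add_zero, zero_add]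
  constructor
  · rintro ⟨h1, h2⟩
    simp [h1, h2]
  · rintro ⟨h1, h2⟩
    rw [h1] at h2
    simp only [mul_zero, map_zero, add_zero] at h2
    refine ⟨h1, ?_⟩
    have h3 : h.w = n.w + h.w + -n.w := by abel
    rw [h3, h2]

/-- elements of `A` act on `T` as power maps -/
lemma conj_T [Fact p.Prime] (a k : Gp p) (ha : a ∈ A p) (hk : k ∈ T p) : ∃ m : ℕ, a * k = k ^ m * a := by
  obtain ⟨h1, h2⟩ := ha
  obtain ⟨h3, h4⟩ := hk
  obtain ⟨j, hj⟩ : ∃ j : ℕ, (j : ZMod p) = a.x := ⟨a.x.val, ZMod.natCast_zmod_val a.x⟩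
  refine ⟨1 + p * j, ?_⟩
  obtain ⟨e1, e2, e3⟩ := pow_eq k (1 + p * j)
  have e4 : io p (a.x * cs p k.w) = j * p * k.w := by
    have := io_mul_cs p a.x (j : ℤ) (by rw [← hj]; simp) k.w
    rw [this]; simp
  ext
  · rw [mul_x, mul_x, e1, h3]; ring
  · rw [mul_y, mul_y, e2, h1]
    push_cast
    rw [ZMod.natCast_self]; ring
  · rw [mul_w, mul_w, e3, h1, h2, h3, h4, e4]
    simp only [zero_mul, map_zero, mul_zero, add_zero]
    push_cast
    ring

lemma proper_A [Fact p.Prime] : Propermutable (A p) := by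
  refine ⟨T p, fun g => ?_, fun K hK => ?_⟩
  · obtain ⟨v, hv⟩ : ∃ v : ZMod (p ^ 2), cs p v = g.y := by
      obtain ⟨k, hk⟩ := ZMod.intCast_surjective g.y
      exact ⟨k, by rw [map_intCast, hk]⟩
    refine ⟨⟨g.x, 0, g.w - v - io p (g.x * g.y)⟩, ⟨0, g.y, v⟩, norm_A _ rfl, ⟨rfl, hv.symm⟩, ?_⟩
    ext
    · simp
    · simp
    · rw [mul_w]
      simp only
      abel
  · have key : (A p : Set (Gp p)) * (K : Set (Gp p)) ⊆ (K : Set (Gp p)) * (A p : Set (Gp p)) := by
      rintro _ ⟨a, ha, k, hk, rfl⟩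
      obtain ⟨m, hm⟩ := conj_T a k ha (hK hk)
      exact ⟨k ^ m, K.pow_mem hk m, a, ha, hm.symm⟩
    refine Set.Subset.antisymm key ?_
    rintro _ ⟨k, hk, a, ha, rfl⟩
    obtain ⟨k', hk', a', ha', h⟩ := key ⟨a⁻¹, (A p).inv_mem ha, k⁻¹, K.inv_mem hk, rfl⟩
    refine ⟨a'⁻¹, (A p).inv_mem ha', k'⁻¹, K.inv_mem hk', ?_⟩
    simp only at h ⊢
    rw [← mul_inv_rev, h, mul_inv_rev, inv_inv, inv_inv]

/-- the elements of `B` have order dividing `p`, for odd `p` -/
lemma pow_p (hp : Odd p) (g : Gp p) (hg : g ∈ B p) : g ^ p = 1 := by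
  obtain ⟨c, hc⟩ := hg
  obtain ⟨e1, e2, e3⟩ := pow_eq g p
  obtain ⟨q, hq⟩ := hp
  have h1 : p.choose 2 = p * q := by
    rw [Nat.choose_two_right, hq]
    have : (2 * q + 1) * (2 * q + 1 - 1) = 2 * ((2 * q + 1) * q) := by
      rw [Nat.add_sub_cancel]; ring
    rw [this, Nat.mul_div_cancel_left _ (by norm_num)]
  have h2 : ∀ u : ZMod p, (p : ZMod (p ^ 2)) * io p u = 0 := fun u => by
    rw [← nsmul_eq_mul, ← map_nsmul, nsmul_eq_mul, ZMod.natCast_self, zero_mul, map_zero]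
  ext
  · rw [e1, ZMod.natCast_self, zero_mul]; rfl
  · rw [e2, ZMod.natCast_self, zero_mul]; rfl
  · rw [e3, ← hc, h2, h1]
    push_cast
    rw [mul_right_comm, h2, zero_mul, add_zero]; rfl

lemma not_proper [Fact p.Prime] (hp : Odd p) : ¬ Propermutable ((A p).subgroupOf (B p)) := by
  rintro ⟨C, h1, h2⟩
  obtain ⟨n, c, hn, hc, hg⟩ := h1 ⟨⟨0, 1, 0⟩, (io p).range.zero_mem⟩
  have hg' := congrArg Subtype.val hg
  have hgy := congrArg Gp.y hg'
  simp only [Subgroup.coe_mul, mul_y] at hgy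
  set a : B p := ⟨⟨1, 0, 0⟩, (io p).range.zero_mem⟩ with ha
  have haA : a ∈ (A p).subgroupOf (B p) := by
    rw [Subgroup.mem_subgroupOf, mem_A]
    exact ⟨rfl, rfl⟩
  -- `n` normalises `A`, so `n.y = 0`
  have hny : (n : Gp p).y = 0 := by
    have h3 := (hn a).1 haA
    rw [Subgroup.mem_subgroupOf, mem_A] at h3
    have h4 := h3.2
    simp only [Subgroup.coe_mul, Subgroup.coe_inv, mul_w, inv_w, mul_x, inv_y, ha] at h4
    apply io_inj p
    have e : -(n : Gp p).y = (n : Gp p).x * 0 + (n : Gp p).x * (n : Gp p).y +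
      ((n : Gp p).x + 1) * -(n : Gp p).y := by ring
    have h5 : io p (-(n : Gp p).y) = 0 := by
      rw [e, map_add, map_add]
      calc _ = (n : Gp p).w + 0 + io p ((n : Gp p).x * 0) + (-(n : Gp p).w +
            io p ((n : Gp p).x * (n : Gp p).y)) + io p (((n : Gp p).x + 1) * -(n : Gp p).y) := by abel
        _ = 0 := h4
    rw [map_neg] at h5
    exact neg_eq_zero.1 h5
  have hcy : (c : Gp p).y = 1 := by
    rw [hny, zero_add] at hgy
    exact hgy.symm
  -- `A` permutes with `⟨c⟩`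
  have h3 := h2 (Subgroup.zpowers c) (by rwa [Subgroup.zpowers_le])
  have h4 : a * c ∈ ((Subgroup.zpowers c : Subgroup (B p)) : Set (B p)) *
      (((A p).subgroupOf (B p) : Subgroup (B p)) : Set (B p)) := by
    rw [← h3]
    exact ⟨a, haA, c, Subgroup.mem_zpowers c, rfl⟩
  obtain ⟨k, hk, a', ha', h5⟩ := h4
  have hfin : Finite (Gp p) := Finite.of_equiv _ (eqv p).symm
  obtain ⟨m, rfl⟩ := mem_powers_iff_mem_zpowers.2 hk
  rw [SetLike.mem_coe, Subgroup.mem_subgroupOf, mem_A] at ha'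
  have h6 := congrArg (fun g : B p => (g : Gp p)) h5
  simp only [Subgroup.coe_mul, Subgroup.coe_pow] at h6
  have h7 := congrArg Gp.y h6
  simp only [mul_y, ha'.1, ha, (pow_eq (c : Gp p) m).2.1, hcy, mul_one, add_zero, zero_add] at h7
  -- `m = 1` modulo `p`, and so `c ^ m = c`
  have h8 : (c : Gp p) ^ m = c := by
    have h9 : m ≡ 1 [MOD p] := by
      rw [← ZMod.natCast_eq_natCast_iff]
      rw [h7, Nat.cast_one]
    have h10 : orderOf (c : Gp p) ∣ p := orderOf_dvd_of_pow_eq_one (pow_p hp _ c.2)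
    have h11 := pow_eq_pow_iff_modEq.2 (h9.of_dvd h10)
    rw [h11, pow_one]
  rw [h8] at h6
  have h12 := congrArg Gp.w h6
  simp only [mul_w, ha'.1, ha'.2, ha, hcy, mul_zero, map_zero, add_zero, zero_add, mul_one] at h12
  have h13 : io p 1 = 0 := by simpa using h12.symm
  exact one_ne_zero (io_inj p _ h13)

/-- **Propermutable subgroups need not be propermutable in intermediate subgroups.** For every odd prime `p`
there are a group `G` of order `p ^ 4`, a normal subgroup `B` of order `p ^ 3` and a subgroup `A ≤ B` of order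
`p` such that `A` is propermutable in `G` but not in `B`. -/
theorem result (p : ℕ) (hp : p.Prime) (h2 : p ≠ 2) :
    ∃ (G : Type) (_ : Group G) (A B : Subgroup G), Nat.card G = p ^ 4 ∧ Nat.card B = p ^ 3 ∧
      Nat.card A = p ∧ B.Normal ∧ A ≤ B ∧ Propermutable A ∧ ¬ Propermutable (A.subgroupOf B) := by
  have : Fact p.Prime := ⟨hp⟩
  exact ⟨Gp p, inferInstance, A p, B p, card_G, card_B, card_A, B_normal, A_le_B, proper_A,
    not_proper (hp.odd_of_ne_two h2)⟩

end Pool.Agent.Results.MP_1ee7a3_al.NotHereditary
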